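import Mathlib
import Pool.Agent.X107.CN.CN10

set_option autoImplicit false

/-!
# Real zeros of quadratic `L(s,χ)`: the characters ordered by the class number

The primitive quadratic characters `χ` with prescribed values at finitely many primes and
prescribed parity are ordered by the size of `√N L(1,χ)`, where `N` is the conductor.  By
Dirichlet's class number formula this is `π h` for odd `χ` with `N > 4`, `h` the class number of the
imaginary quadratic field, and `2 h log ε` for even `χ`, `h` and `ε` the class number and the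
fundamental unit of the real quadratic field.
-/

namespace Pool.Agent.Results.MP_0016c7_nt.ByClassNumber

open Filter Topology

/-- The pairs `(N, χ)`, `N ≥ 1`, with `χ` a nontrivial primitive quadratic Dirichlet character
modulo `N` such that `χ(-1) = s` and `χ(p) = c p` for all `p ∈ S`. -/
def Class (S : Finset ℕ) (c : ℕ → ℤ) (s : ℤ) : Set (Σ N : ℕ, DirichletCharacter ℂ N) :=
  {p | p.1 ≠ 0 ∧ p.2.IsPrimitive ∧ p.2 ^ 2 = 1 ∧ p.2 ≠ 1 ∧ p.2 (-1) = (s : ℂ) ∧
    ∀ q ∈ S, p.2 (q : ZMod p.1) = (c q : ℂ)}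

/-- `L(s,χ)` is real and positive for every real `s` with `0 < s < 1`. -/
def Positive (p : Σ N : ℕ, DirichletCharacter ℂ N) : Prop :=
  ∃ _ : NeZero p.1, ∀ s : ℝ, 0 < s → s < 1 →
    (DirichletCharacter.LFunction p.2 (s : ℂ)).im = 0 ∧
    0 < (DirichletCharacter.LFunction p.2 (s : ℂ)).re

/-- `√N |L(1,χ)|`. -/
noncomputable def Size (p : Σ N : ℕ, DirichletCharacter ℂ N) : ℝ :=
  √(p.1 : ℝ) * ‖(if h : p.1 = 0 then 0 else @DirichletCharacter.LFunction p.1 ⟨h⟩ p.2 1 : ℂ)‖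

/-- **Theorem.** Let `S` be a finite set of primes, `c p ∈ {0, 1, -1}` for `p ∈ S` and
`s ∈ {1, -1}`.  Consider the primitive quadratic characters `χ`, of any conductor `N`, with
`χ(p) = c p` for `p ∈ S`, `χ(-1) = s` and `√N |L(1,χ)| ≤ H`.

* They are finite in number, and their number is asymptotic to `κ H ^ 2` for a constant `κ > 0`.
* For all large `H`, at least 86.49 percent of them satisfy `L(σ,χ) > 0` for all `0 < σ < 1`.
* Every set of characters which has density zero in the class when the characters are ordered by the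
  conductor has density zero when they are ordered by `√N |L(1,χ)|`. -/
theorem result (S : Finset ℕ) (hS : ∀ p ∈ S, p.Prime) (c : ℕ → ℤ)
    (hc : ∀ p ∈ S, c p = 0 ∨ c p = 1 ∨ c p = -1) (s : ℤ) (hs : s = 1 ∨ s = -1) :
    (∀ H : ℝ, {p ∈ Class S c s | Size p ≤ H}.Finite) ∧
    (∃ κ : ℝ, 0 < κ ∧ Tendsto (fun H : ℝ => ({p ∈ Class S c s | Size p ≤ H}.ncard : ℝ) / H ^ 2)
      atTop (𝓝 κ)) ∧
    (∃ H0 : ℝ, ∀ H : ℝ, H0 ≤ H →
      8649 / 10000 * ({p ∈ Class S c s | Size p ≤ H}.ncard : ℝ) ≤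
        ({p ∈ Class S c s | Size p ≤ H ∧ Positive p}.ncard : ℝ)) ∧
    (∀ E : Set (Σ N : ℕ, DirichletCharacter ℂ N),
      Tendsto (fun X : ℕ => ({p ∈ Class S c s | p.1 ≤ X ∧ p ∈ E}.ncard : ℝ) / X) atTop (𝓝 0) →
      Tendsto (fun H : ℝ => ({p ∈ Class S c s | Size p ≤ H ∧ p ∈ E}.ncard : ℝ) / H ^ 2) atTop
        (𝓝 0)) := by
  have h := Pool.Agent.X107.CN.mainK S hS c hc s hs
  have e1 : ∀ H : ℝ, {p ∈ Class S c s | Size p ≤ H} = Pool.Agent.H306R2.RG.LnkC.RPC ∩
      Pool.Agent.X107.CN.KC S c s H := by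
    intro H
    ext p
    simp only [Class, Pool.Agent.H306R2.RG.LnkC.RPC, Pool.Agent.X107.CN.KC,
      Pool.Agent.W161.LF.CL, Set.mem_inter_iff, Set.mem_ofPred_eq]
    have : Size p = Pool.Agent.X107.CN.Od p := rfl
    rw [this]
    tauto
  have e2 : ∀ (H : ℝ) (P : (Σ N : ℕ, DirichletCharacter ℂ N) → Prop),
      {p ∈ Class S c s | Size p ≤ H ∧ P p} = Pool.Agent.H306R2.RG.LnkC.RPC ∩
      (Pool.Agent.X107.CN.KC S c s H ∩ {p | P p}) := by
    intro H P
    rw [← Set.inter_assoc, ← e1]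
    ext p
    simp only [Set.mem_inter_iff, Set.mem_ofPred_eq]
    tauto
  have e3 : ∀ (X : ℕ) (E : Set (Σ N : ℕ, DirichletCharacter ℂ N)),
      {p ∈ Class S c s | p.1 ≤ X ∧ p ∈ E} = Pool.Agent.H306R2.RG.LnkC.RPC ∩
      ((Pool.Agent.W161.LF.CL S c s ∩ {p | p.1 ≤ X}) ∩ E) := by
    intro X E
    ext p
    simp only [Class, Pool.Agent.H306R2.RG.LnkC.RPC, Pool.Agent.W161.LF.CL, Set.mem_inter_iff,
      Set.mem_ofPred_eq]
    tauto
  refine ⟨fun H => ?_, ?_, ?_, fun E hE => ?_⟩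
  · rw [e1]
    exact h.1 H
  · obtain ⟨κ, hκ, hl⟩ := h.2.1
    refine ⟨κ, hκ, ?_⟩
    simp only [e1]
    exact hl
  · obtain ⟨H0, hH0⟩ := h.2.2.1
    refine ⟨H0, fun H hH => ?_⟩
    rw [e1, e2 H Positive]
    exact hH0 H hH
  · simp only [e3] at hE
    have hl := h.2.2.2 E hE
    refine hl.congr fun H => ?_
    rw [e2 H (fun p => p ∈ E)]
    rfl

end Pool.Agent.Results.MP_0016c7_nt.ByClassNumber
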