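import Pool.Agent.X107.RZ.AsmR

set_option autoImplicit false

/-!
# A lower bound for quadratic `L(s,χ)` on the whole segment, for most characters

Fix finitely many primes, a value `0, 1, -1` at each of them, and the parity. Among the primitive
quadratic characters `χ` of conductor at most `X` with these values and this parity, at least 86.45
percent have no real zero in `(0,1)` and satisfy in addition, uniformly for `1/2 ≤ s < 1`,
`L(s,χ) ≥ b √(s - 1/2 + 1/log X) / (1 + log (1 + (s - 1/2) log X))`; in particular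
`L(1/2,χ) ≥ b (log X)^(-1/2)`.
-/

namespace Pool.Agent.Results.MP_0016c7_nt.LowerBounds

open Set

/-- The pairs `(N, χ)` with `1 ≤ N ≤ X` and `χ` a nontrivial primitive quadratic Dirichlet
character modulo `N` such that `χ(-1) = s` and `χ(p) = c p` for all `p ∈ S`. -/
def Class (S : Finset ℕ) (c : ℕ → ℤ) (s : ℤ) (X : ℕ) : Set (Σ N : ℕ, DirichletCharacter ℂ N) :=
  {p | p.1 ≠ 0 ∧ p.1 ≤ X ∧ p.2.IsPrimitive ∧ p.2 ^ 2 = 1 ∧ p.2 ≠ 1 ∧ p.2 (-1) = (s : ℂ) ∧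
    ∀ q ∈ S, p.2 (q : ZMod p.1) = (c q : ℂ)}

/-- `L(σ,χ)` is real and positive for every real `σ` with `0 < σ < 1`, and it is at least
`b √(σ - 1/2 + 1/L) / (1 + log (1 + (σ - 1/2) L))` for `1/2 ≤ σ < 1`. -/
def Large (b L : ℝ) (p : Σ N : ℕ, DirichletCharacter ℂ N) : Prop :=
  ∃ _ : NeZero p.1, ∀ σ : ℝ, 0 < σ → σ < 1 →
    (DirichletCharacter.LFunction p.2 (σ : ℂ)).im = 0 ∧
    0 < (DirichletCharacter.LFunction p.2 (σ : ℂ)).re ∧
    (1 / 2 ≤ σ → b * (Real.sqrt (σ - 1 / 2 + 1 / L) / (1 + Real.log (1 + (σ - 1 / 2) * L))) ≤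
      (DirichletCharacter.LFunction p.2 (σ : ℂ)).re)

/-- **Theorem.** Let `S` be a finite set of primes, `c p ∈ {0, 1, -1}` for `p ∈ S` and
`s ∈ {1, -1}`. There is `b > 0` such that for all large `X` at least 86.45 percent of the primitive
quadratic characters `χ` of conductor at most `X` with `χ(p) = c p` for `p ∈ S` and `χ(-1) = s`
satisfy `L(σ,χ) > 0` for all `0 < σ < 1` and
`L(σ,χ) ≥ b √(σ - 1/2 + 1/log X) / (1 + log (1 + (σ - 1/2) log X))` for all `1/2 ≤ σ < 1`. -/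
theorem result (S : Finset ℕ) (hS : ∀ p ∈ S, p.Prime) (c : ℕ → ℤ)
    (hc : ∀ p ∈ S, c p = 0 ∨ c p = 1 ∨ c p = -1) (s : ℤ) (hs : s = 1 ∨ s = -1) :
    (∀ X : ℕ, (Class S c s X).Finite) ∧
    (∃ κ : ℝ, 0 < κ ∧ ∃ X0 : ℕ, ∀ X : ℕ, X0 ≤ X →
      κ * (X : ℝ) ≤ ((Class S c s X).ncard : ℝ)) ∧
    (∃ b : ℝ, 0 < b ∧ ∃ X0 : ℕ, ∀ X : ℕ, X0 ≤ X →
      (8645 / 10000 : ℝ) * ((Class S c s X).ncard : ℝ) ≤
        ((Class S c s X ∩ {p | Large b (Real.log X) p}).ncard : ℝ)) := by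
  obtain ⟨h1, ⟨κ, N1, hκ, h2⟩, -⟩ := Pool.Agent.W161.LF.mainA S hS c hc s hs
  obtain ⟨b, hb, N2, h3⟩ := Pool.Agent.X107.RZ.mainQ S hS c hc s
  have e1 : ∀ X : ℕ, Class S c s X = Pool.Agent.H306R2.RG.LnkC.RPC ∩
      (Pool.Agent.W161.LF.CL S c s ∩ {p | p.1 ≤ X}) := by
    intro X
    ext p
    simp only [Class, Pool.Agent.H306R2.RG.LnkC.RPC, Pool.Agent.W161.LF.CL, Set.mem_inter_iff,
      Set.mem_ofPred_eq]
    tauto
  have e2 : ∀ X : ℕ, Class S c s X ∩ {p | Large b (Real.log X) p} =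
      Pool.Agent.H306R2.RG.LnkC.RPC ∩
      ((Pool.Agent.W161.LF.CL S c s ∩ {p | p.1 ≤ X}) ∩ {p | Pool.Agent.X107.RZ.BQ b X p}) := by
    intro X
    rw [e1, Set.inter_assoc]
    rfl
  refine ⟨fun X => ?_, ⟨κ, hκ, N1, fun X hX => ?_⟩, ⟨b, hb, N2, fun X hX => ?_⟩⟩
  · rw [e1]; exact h1 X
  · rw [e1]; exact h2 X hX
  · rw [e2, e1]; exact h3 X hX

end Pool.Agent.Results.MP_0016c7_nt.LowerBounds
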