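import Mathlib
import Pool.Agent.X107.RZ.WtD

set_option autoImplicit false

/-!
# Real zeros of quadratic `L(s,χ)`: families weighted by values of `L`-functions

The primitive quadratic characters `χ` with prescribed values at finitely many primes and
prescribed parity are counted with a weight `G(N/X) H(L(z₁,χ), …, L(z_k,χ))`, where `N` is the
conductor and `z₁, …, z_k` are points on the right of `Re s = 1/2`; in particular they are counted
with the weight `√N L(1,χ)`, which for odd `χ` is essentially the class number.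
-/

namespace Pool.Agent.Results.MP_0016c7_nt.WeightedByLValues

/-- The pairs `(N, χ)` with `1 ≤ N ≤ X` and `χ` a nontrivial primitive quadratic Dirichlet
character modulo `N` such that `χ(-1) = s` and `χ(p) = c p` for all `p ∈ S`. -/
def Class (S : Finset ℕ) (c : ℕ → ℤ) (s : ℤ) (X : ℕ) : Set (Σ N : ℕ, DirichletCharacter ℂ N) :=
  {p | p.1 ≠ 0 ∧ p.1 ≤ X ∧ p.2.IsPrimitive ∧ p.2 ^ 2 = 1 ∧ p.2 ≠ 1 ∧ p.2 (-1) = (s : ℂ) ∧
    ∀ q ∈ S, p.2 (q : ZMod p.1) = (c q : ℂ)}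

/-- `L(s,χ)` is real and positive for every real `s` with `0 < s < 1`. -/
def Positive (p : Σ N : ℕ, DirichletCharacter ℂ N) : Prop :=
  ∃ _ : NeZero p.1, ∀ s : ℝ, 0 < s → s < 1 →
    (DirichletCharacter.LFunction p.2 (s : ℂ)).im = 0 ∧
    0 < (DirichletCharacter.LFunction p.2 (s : ℂ)).re

/-- The value `L(z,χ)`. -/
noncomputable def LValue (p : Σ N : ℕ, DirichletCharacter ℂ N) (z : ℂ) : ℂ :=
  if h : p.1 = 0 then 0 else @DirichletCharacter.LFunction p.1 ⟨h⟩ p.2 z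

/-- **Theorem.** Let `S` be a finite set of primes, `c p ∈ {0, 1, -1}` for `p ∈ S` and
`s ∈ {1, -1}`, and consider the finite sets `Class S c s X`.

First, let `z₁, …, z_k` be complex numbers with real parts larger than `1/2`, let `H ≥ 0` be a
Lipschitz function on `ℂ^k` and `G ≥ 0` a continuous function on `[0,1]`. If `χ`, of conductor
`N ≤ X`, is counted with the weight `G(N/X) H(L(z₁,χ), …, L(z_k,χ))`, then the characters with
`L(σ,χ) > 0` for all `0 < σ < 1` carry at least 86.5 percent of the total weight, up to an error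
`ε X`, for every `ε > 0` and all `X ≥ X0(ε)`.

Second, for all large `X` these characters carry at least 86.49 percent of the total weight if
`χ` is counted with the weight `√N |L(1,χ)|`. -/
theorem result (S : Finset ℕ) (hS : ∀ p ∈ S, p.Prime) (c : ℕ → ℤ)
    (hc : ∀ p ∈ S, c p = 0 ∨ c p = 1 ∨ c p = -1) (s : ℤ) (hs : s = 1 ∨ s = -1) :
    (∀ X : ℕ, (Class S c s X).Finite) ∧
    (∀ (k : ℕ) (z : Fin k → ℂ), (∀ j, 1 / 2 < (z j).re) →
      ∀ (K : NNReal) (H : (Fin k → ℂ) → ℝ), LipschitzWith K H → (∀ v, 0 ≤ H v) →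
      ∀ G : ℝ → ℝ, ContinuousOn G (Set.Icc 0 1) → (∀ x ∈ Set.Icc (0 : ℝ) 1, 0 ≤ G x) →
      ∀ ε : ℝ, 0 < ε → ∃ X0 : ℕ, ∀ X : ℕ, X0 ≤ X →
        865 / 1000 * (∑ᶠ p ∈ Class S c s X,
          G ((p.1 : ℝ) / X) * H (fun j => LValue p (z j))) ≤
        (∑ᶠ p ∈ Class S c s X ∩ {p | Positive p},
          G ((p.1 : ℝ) / X) * H (fun j => LValue p (z j))) + ε * X) ∧
    (∃ X0 : ℕ, ∀ X : ℕ, X0 ≤ X →
      8649 / 10000 * (∑ᶠ p ∈ Class S c s X, √(p.1 : ℝ) * ‖LValue p 1‖) ≤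
        ∑ᶠ p ∈ Class S c s X ∩ {p | Positive p}, √(p.1 : ℝ) * ‖LValue p 1‖) := by
  have h1 := (Pool.Agent.W161.LF.mainA S hS c hc s hs).1
  have e1 : ∀ X : ℕ, Class S c s X = Pool.Agent.H306R2.RG.LnkC.RPC ∩
      (Pool.Agent.W161.LF.CL S c s ∩ {p | p.1 ≤ X}) := by
    intro X
    ext p
    simp only [Class, Pool.Agent.H306R2.RG.LnkC.RPC, Pool.Agent.W161.LF.CL, Set.mem_inter_iff,
      Set.mem_ofPred_eq]
    tauto
  have e2 : ∀ X : ℕ, Class S c s X ∩ {p | Positive p} = Pool.Agent.H306R2.RG.LnkC.RPC ∩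
      ((Pool.Agent.W161.LF.CL S c s ∩ {p | p.1 ≤ X}) ∩
        {p | Pool.Agent.H306R2.RG.LnkC.POS p}) := by
    intro X
    rw [e1, Set.inter_assoc]
    rfl
  refine ⟨fun X => ?_, fun k z hz K H hH hH0 G hG hG0 ε hε => ?_, ?_⟩
  · rw [e1]; exact h1 X
  · obtain ⟨N, hN⟩ := Pool.Agent.X107.RZ.mainW S hS c s z hz K H hH hH0 G hG hG0 ε hε
    refine ⟨N, fun X hX => ?_⟩
    rw [e2, e1]
    exact hN X hX
  · obtain ⟨N, hN⟩ := Pool.Agent.X107.RZ.mainCN S hS c hc s hs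
    refine ⟨N, fun X hX => ?_⟩
    rw [e2, e1]
    exact hN X hX

end Pool.Agent.Results.MP_0016c7_nt.WeightedByLValues
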